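import Pool.Agent.R988.NQ.QObs

/-!
# Equilibration in the Anderson model, almost surely and for all states

`Δ_ω = -Δ + ω` on `ℤ^d`, `ω_j` iid with any law of bounded support which is not a point mass, for
instance `P(ω_j = ±1) = 1/2`. For every bounded self-adjoint local observable `A_ω` which is
covariant under translations, and for almost every `ω`: the time averages of
`e^{isΔ_ω} A_ω e^{-isΔ_ω}` converge strongly, on all states, and on the absolutely continuous
subspace of `Δ_ω` (if it is not zero) the limit is `f(Δ_ω)`, with a deterministic bounded Borel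
function `f`, the microcanonical average of `A`. So for almost every `ω`, in all states `u` of the
absolutely continuous subspace, whatever their localization in space, the time averaged expectation
of `A` tends to `∫ f dm`, where `m` is the spectral measure of `u`.
-/

set_option autoImplicit false

open MeasureTheory Filter Topology
open scoped BigOperators ENNReal NNReal InnerProductSpace

namespace Pool.Agent.R988.Old.Equilibration

/-- `ℓ²(ℤ^d)` -/
abbrev L2 (d : ℕ) : Type := lp (fun _ : Fin d → ℤ => ℂ) 2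

/-- potentials on `ℤ^d` -/
abbrev Pot (d : ℕ) : Type := (Fin d → ℤ) → ℝ

/-- the operator of the problem, `(Δ_ω u)(j) = -∑_{|n|=1} (u(j+n) - u(j)) + ω_j u(j)` (the unit
vectors `n` are `± e_i`) -/
noncomputable def H {d : ℕ} (ω : Pot d) (u : (Fin d → ℤ) → ℂ) (j : Fin d → ℤ) : ℂ :=
  -(∑ i : Fin d, ((u (j + Pi.single i 1) - u j) + (u (j - Pi.single i 1) - u j))) + (ω j : ℂ) * u j

/-- `U t = e^{-itΔ_ω}`: norm preserving maps of `ℓ²(ℤ^d)` with `U 0 = 1` and `i ∂_t (U_t u) = Δ_ω U_t u`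
at every site -/
structure IsPropagator {d : ℕ} (ω : Pot d) (U : ℝ → L2 d → L2 d) : Prop where
  zero : ∀ u, U 0 u = u
  norm : ∀ t u, ‖U t u‖ = ‖u‖
  schrodinger : ∀ u t j, HasDerivAt (fun s => (U s u) j)
    (-Complex.I * H ω (fun k => (U t u) k) j) t

/-- `⟨A_ω u, w⟩ = ⟨u, A_ω w⟩`; such a map is linear -/
def Symmetric {d : ℕ} (A : Pot d → L2 d → L2 d) : Prop :=
  ∀ (ω : Pot d) (u w : L2 d), ⟪A ω u, w⟫_ℂ = ⟪u, A ω w⟫_ℂ

/-- bounded, uniformly in `ω` -/
def Bounded {d : ℕ} (A : Pot d → L2 d → L2 d) : Prop :=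
  ∃ M : ℝ, ∀ (ω : Pot d) (u : L2 d), ‖A ω u‖ ≤ M * ‖u‖

/-- covariant under translations -/
def Covariant {d : ℕ} (A : Pot d → L2 d → L2 d) : Prop :=
  ∀ (z : Fin d → ℤ) (ω : Pot d) (u w : L2 d), (∀ j, w j = u (j + z)) →
    ∀ j, (A (fun k => ω (k + z)) w) j = (A ω u) (j + z)

/-- a change of the potential at the origin changes `A_ω u` by at most a constant times the values
of `|u|` on a finite set -/
def LocalAtOrigin {d : ℕ} (A : Pot d → L2 d → L2 d) : Prop :=
  ∀ (ω : Pot d) (r : ℝ), ∃ (F : Finset (Fin d → ℤ)) (C : ℝ), ∀ u : L2 d,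
    ‖A (Function.update ω 0 r) u - A ω u‖ ≤ C * ∑ j ∈ F, ‖u j‖

/-- `A_ω` is a local observable: bounded self-adjoint operators, bounded uniformly in `ω`, jointly
continuous in `ω` (product topology) and the vector, covariant under translations, and such that a
change of the potential at the origin changes `A_ω u` by at most a constant times the values of
`|u|` on a finite set. Examples are all bounded self-adjoint translation invariant operators, and
all self-adjoint finite range operators with covariant coefficients which are bounded continuous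
functions of the potential at finitely many sites. -/
structure IsLocalObservable {d : ℕ} (A : Pot d → L2 d → L2 d) : Prop where
  symmetric : Symmetric A
  bounded : Bounded A
  continuous : Continuous fun q : Pot d × L2 d => A q.1 q.2
  covariant : Covariant A
  localAtOrigin : LocalAtOrigin A

/-- `m` is the spectral measure of `u`: the finite measure with
`⟨u, e^{-itΔ_ω} u⟩ = ∫ e^{-itE} dm(E)` -/
def IsSpectral {d : ℕ} (U : ℝ → L2 d → L2 d) (u : L2 d) (m : Measure ℝ) : Prop :=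
  IsFiniteMeasure m ∧
    ∀ t : ℝ, ⟪u, U t u⟫_ℂ = ∫ E : ℝ, Complex.exp (-(Complex.I * t * E)) ∂m

/-- `u` is in the absolutely continuous subspace -/
def IsAC {d : ℕ} (U : ℝ → L2 d → L2 d) (u : L2 d) : Prop :=
  ∃ m : Measure ℝ, IsSpectral U u m ∧ m ≪ volume

/-- `w = f(Δ_ω) u`: with the spectral measure `m` of `u`, `⟨e^{-itΔ_ω} u, w⟩ = ∫ e^{itE} f(E) dm(E)`
for all `t`, and `‖w‖² = ∫ f² dm` -/
def IsFunctionOf {d : ℕ} (U : ℝ → L2 d → L2 d) (f : ℝ → ℝ) (u w : L2 d) : Prop :=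
  ∃ m : Measure ℝ, IsSpectral U u m ∧
    (∀ t : ℝ, ⟪U t u, w⟫_ℂ = ∫ E : ℝ, Complex.exp (Complex.I * t * E) * f E ∂m) ∧
    ‖w‖ ^ 2 = ∫ E, f E ^ 2 ∂m

/-- the law of iid variables with law `μ` on `ℤ^d` -/
noncomputable def iid (d : ℕ) (μ : Measure ℝ) : Measure (Pot d) :=
  Measure.infinitePi fun _ => μ

/-- the time average over `[0,T]` of the observable at time `s`, `U_{-s} A U_s`, applied to `u` -/
noncomputable def average {d : ℕ} (U : ℝ → L2 d → L2 d) (A : L2 d → L2 d) (T : ℝ)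
    (u : L2 d) : L2 d :=
  ((T : ℂ)⁻¹) • ∫ s in (0 : ℝ)..T, U (-s) (A (U s u))

/-- `p` is the orthogonal projection of `u` to the absolutely continuous subspace -/
def IsACPart {d : ℕ} (U : ℝ → L2 d → L2 d) (u p : L2 d) : Prop :=
  IsAC U p ∧ ∀ w : L2 d, IsAC U w → ⟪u - p, w⟫_ℂ = 0

/-- `p(ω)` is the part of `δ_0` in the absolutely continuous subspace of `Δ_ω`, and the absolutely
continuous finite measure `κ` is the density of states of this subspace, that is,
`E ⟨p, e^{-itΔ_ω} p⟩ = ∫ e^{-itE} dκ(E)` for all `t` -/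
structure IsDensity {d : ℕ} (μ : Measure ℝ) (U : Pot d → ℝ → L2 d → L2 d)
    (p : Pot d → L2 d) (κ : Measure ℝ) : Prop where
  meas : AEStronglyMeasurable p (iid d μ)
  part : ∀ᵐ ω ∂(iid d μ), IsACPart (U ω) (lp.single 2 0 1) (p ω)
  finite : IsFiniteMeasure κ
  ac : κ ≪ volume
  fourier : ∀ t : ℝ, ∫ ω, ⟪p ω, U ω t (p ω)⟫_ℂ ∂(iid d μ) =
    ∫ E : ℝ, Complex.exp (-(Complex.I * t * E)) ∂κ

/-- the bounded Borel function `f` is the microcanonical average of the observable `A`: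
`E ⟨e^{-itΔ_ω} p, A_ω p⟩ = ∫ e^{itE} f(E) dκ(E)` for all `t`. This determines `f` up to `κ`-null
sets. -/
structure IsMicrocanonical {d : ℕ} (μ : Measure ℝ) (U : Pot d → ℝ → L2 d → L2 d)
    (p : Pot d → L2 d) (κ : Measure ℝ) (A : Pot d → L2 d → L2 d)
    (f : ℝ → ℝ) : Prop where
  meas : Measurable f
  bounded : ∃ M : ℝ, ∀ E, |f E| ≤ M
  formula : ∀ t : ℝ, ∫ ω, ⟪U ω t (p ω), A ω (p ω)⟫_ℂ ∂(iid d μ) =
    ∫ E : ℝ, Complex.exp (Complex.I * t * E) * f E ∂κ

/-- the time averages of the observable converge strongly, on all states -/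
def Converges {d : ℕ} (U : ℝ → L2 d → L2 d) (A : L2 d → L2 d) : Prop :=
  ∀ u : L2 d, ∃ w : L2 d, Tendsto (fun T : ℝ => average U A T u) atTop (𝓝 w)

/-- on the absolutely continuous subspace the limit of the time averages of the observable is
`f(Δ_ω)`, and the time average over `[0,T]` of the expectation `⟨U_s u, A U_s u⟩` tends to
`∫ f dm`, `m` the spectral measure of `u` -/
def Equilibrates {d : ℕ} (U : ℝ → L2 d → L2 d) (A : L2 d → L2 d) (f : ℝ → ℝ) : Prop :=
  ∀ u : L2 d, IsAC U u →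
    (∃ w : L2 d, IsFunctionOf U f u w ∧ Tendsto (fun T : ℝ => average U A T u) atTop (𝓝 w)) ∧
    ∀ m : Measure ℝ, IsSpectral U u m →
      Tendsto (fun T : ℝ => T⁻¹ * ∫ s in (0 : ℝ)..T, (⟪U s u, A (U s u)⟫_ℂ).re) atTop
        (𝓝 (∫ E, f E ∂m))

open Pool.Agent.H5R2 Pool.Agent.Y662.ERG

theorem sol_of_prop {d : ℕ} {ω : (Fin d → ℤ) → ℝ} {U : ℝ → L2 d → L2 d}
    (hU : IsPropagator ω U) (u : L2 d) :
    NB.IsSol (-1) (fun x => 2 * d + ω x) (fun t => U t u) (fun _ => 0) := by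
  refine ⟨fun T => ⟨‖u‖, fun t _ => (hU.norm t u).le⟩, fun t x => ?_⟩
  have h := hU.schrodinger u t x
  have e := NB.FIN.hop_eq ω (fun k => (U t u) k) x
  have e2 : -Complex.I * (NB.hopf (-1) (fun y => (U t u) y) x +
      (((fun x => 2 * d + ω x) x : ℝ) : ℂ) * (U t u) x) + ((0 : L2 d) : (Fin d → ℤ) → ℂ) x =
      -Complex.I * H ω (fun k => (U t u) k) x := by
    have e3 : H ω (fun k => (U t u) k) x = -(∑ i : Fin d,
        (((U t u) (x + Pi.single i 1) - (U t u) x) + ((U t u) (x - Pi.single i 1) - (U t u) x))) +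
        (ω x : ℂ) * (U t u) x := rfl
    rw [e3, ← e]
    simp
  rw [e2]
  exact h

theorem prop_of_grp {d : ℕ} {ω : (Fin d → ℤ) → ℝ} {W : NB.UG (NB.L2 (NB.Site d))}
    (hW : NB.IsGrp (-1) (fun x => 2 * d + ω x) W) : IsPropagator ω (fun t u => W.U t u) := by
  refine ⟨W.zero', W.norm', fun u t x => ?_⟩
  have h := (hW u).2 t x
  have e := NB.FIN.hop_eq ω (fun k => (W.U t u) k) x
  have e3 : H ω (fun k => (W.U t u) k) x = -(∑ i : Fin d,
        (((W.U t u) (x + Pi.single i 1) - (W.U t u) x) +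
          ((W.U t u) (x - Pi.single i 1) - (W.U t u) x))) + (ω x : ℂ) * (W.U t u) x := rfl
  rw [e3, ← e]
  simpa using h

theorem prop_eq {d : ℕ} {ω : (Fin d → ℤ) → ℝ} {W : NB.UG (NB.L2 (NB.Site d))}
    (hW : NB.IsGrp (-1) (fun x => 2 * d + ω x) W) {U : ℝ → L2 d → L2 d}
    (hU : IsPropagator ω U) (t : ℝ) (u : L2 d) : U t u = W.U t u := by
  have h := NB.ALL.a_UN d (-1) _ W hW (fun t => U t u) (fun _ => 0)
    continuous_const (sol_of_prop hU u) t
  simpa [hU.zero u] using h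

theorem lin_of {d : ℕ} {A : L2 d → L2 d} (hs : ∀ u w : L2 d, ⟪A u, w⟫_ℂ = ⟪u, A w⟫_ℂ) :
    (∀ u w, A (u + w) = A u + A w) ∧ ∀ (c : ℂ) (u), A (c • u) = c • A u := by
  constructor
  · intro u w
    refine ext_inner_right ℂ fun x => ?_
    rw [hs, inner_add_left, inner_add_left, hs, hs]
  · intro c u
    refine ext_inner_right ℂ fun x => ?_
    rw [hs, inner_smul_left, inner_smul_left, hs]

/-- the bounded operator -/
noncomputable def toOp {d : ℕ} (A : L2 d → L2 d)
    (hs : ∀ u w : L2 d, ⟪A u, w⟫_ℂ = ⟪u, A w⟫_ℂ) (hb : ∃ M : ℝ, ∀ u, ‖A u‖ ≤ M * ‖u‖) :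
    L2 d →L[ℂ] L2 d :=
  LinearMap.mkContinuousOfExistsBound
    { toFun := A, map_add' := (lin_of hs).1, map_smul' := (lin_of hs).2 } hb

theorem obs_of {d : ℕ} {A : Pot d → L2 d → L2 d} (hA : IsLocalObservable A) :
    ∃ (v : Pot d → L2 d →L[ℂ] L2 d) (M : ℝ), (∀ ω u, v ω u = A ω u) ∧ Obs d v M := by
  obtain ⟨M, hM⟩ := hA.bounded
  refine ⟨fun ω => toOp (A ω) (hA.symmetric ω) ⟨M, hM ω⟩, M, fun ω u => rfl,
    hA.symmetric, hM, hA.continuous, fun z S hS ω u => ?_, fun ω r => ?_⟩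
  · ext j
    show (A (fun k => ω (k + z)) (S u)) j = (S (A ω u)) j
    rw [hA.covariant z ω u (S u) (fun k => hS u k) j, hS]
  · obtain ⟨F, C, h⟩ := hA.localAtOrigin ω r
    refine ⟨F, C, fun u => ?_⟩
    simp only [NB.STAT.inner_dl]
    exact h u

/-- the expectation as a scalar product with the average -/
theorem inner_average {d : ℕ} (W : NB.UG (NB.L2 (NB.Site d))) (v : L2 d →L[ℂ] L2 d) (u : L2 d)
    (T : ℝ) :
    (⟪u, ((T : ℂ)⁻¹) • ∫ s in (0 : ℝ)..T, W.U (-s) (v (W.U s u))⟫_ℂ).re =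
      T⁻¹ * ∫ s in (0 : ℝ)..T, (⟪W.U s u, v (W.U s u)⟫_ℂ).re := by
  have hc : Continuous fun s : ℝ => W.U (-s) (v (W.U s u)) := NB.LIMB.cont_P W v u
  have h1 : ⟪u, ∫ s in (0 : ℝ)..T, W.U (-s) (v (W.U s u))⟫_ℂ =
      ∫ s in (0 : ℝ)..T, ⟪u, W.U (-s) (v (W.U s u))⟫_ℂ := by
    have := (innerSL ℂ u).intervalIntegral_comp_comm
      (hc.intervalIntegrable (μ := volume) 0 T)
    simpa using this.symm
  have h2 : ∀ s : ℝ, ⟪u, W.U (-s) (v (W.U s u))⟫_ℂ = ⟪W.U s u, v (W.U s u)⟫_ℂ := by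
    intro s
    rw [NB.STAT.inner_adj W (-s) u (v (W.U s u)), neg_neg]
  have h3 : Continuous fun s : ℝ => ⟪u, W.U (-s) (v (W.U s u))⟫_ℂ :=
    continuous_const.inner hc
  rw [inner_smul_right, h1]
  have h4 : (∫ s in (0 : ℝ)..T, ⟪u, W.U (-s) (v (W.U s u))⟫_ℂ).re =
      ∫ s in (0 : ℝ)..T, (⟪W.U s u, v (W.U s u)⟫_ℂ).re := by
    have := Complex.reCLM.intervalIntegral_comp_comm
      (h3.intervalIntegrable (μ := volume) 0 T)
    simp only [Complex.reCLM_apply] at this
    rw [← this]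
    simp only [h2]
  rw [← Complex.ofReal_inv, Complex.re_ofReal_mul, h4]

/-- Let `d ≥ 1` and let `μ` be a law with bounded support which is not a point mass. For every
potential the unitary group exists and is unique. There are the part `p(ω)` of `δ_0` in the
absolutely continuous subspace and its density of states `κ` such that for every local observable
`A` there is a bounded Borel function `f`, not depending on `ω`, which is the microcanonical average
of `A`, such that for almost every `ω` the time averages of `A_ω` converge strongly on all states,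
and on the absolutely continuous subspace the limit is `f(Δ_ω)`. -/
theorem result (d : ℕ) (hd : 1 ≤ d) (μ : Measure ℝ) [IsProbabilityMeasure μ]
    (hb : ∃ K : ℝ, ∀ᵐ r ∂μ, |r| ≤ K) (hμ : ∀ r : ℝ, μ {r} ≠ 1) :
    (∀ ω : Pot d, ∃! U : ℝ → L2 d → L2 d, IsPropagator ω U) ∧
    ∀ U : Pot d → ℝ → L2 d → L2 d, (∀ ω, IsPropagator ω (U ω)) →
      ∃ (p : Pot d → L2 d) (κ : Measure ℝ), IsDensity μ U p κ ∧
        ∀ A : Pot d → L2 d → L2 d, IsLocalObservable A →
          ∃ f : ℝ → ℝ, IsMicrocanonical μ U p κ A f ∧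
            ∀ᵐ ω ∂(iid d μ), Converges (U ω) (A ω) ∧ Equilibrates (U ω) (A ω) f := by
  obtain ⟨K, hK⟩ := hb
  refine ⟨fun ω => ?_, fun U hU => ?_⟩
  · obtain ⟨W, hW⟩ := NB.ALL.a_EX d (-1) (fun x => 2 * d + ω x)
    refine ⟨fun t u => W.U t u, prop_of_grp hW, fun U hU => ?_⟩
    funext t u
    exact prop_eq hW hU t u
  · choose ev hev using fun ω : NB.Site d → ℝ => NB.ALL.a_EX d (-1) (fun x => 2 * d + ω x)
    have hUe : ∀ ω t u, U ω t u = (ev ω).U t u := fun ω t u => prop_eq (hev ω) (hU ω) t u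
    obtain ⟨κ, hκ1, hκ2, hκ3, hmain⟩ := main_mic hd hK hμ hev
    have hbd := bd_ae (d := d) hK
    have hac_iff : ∀ ω : (Fin d → ℤ) → ℝ, (∀ x, |ω x| ≤ K) → ∀ u : L2 d,
        IsAC (U ω) u ↔ Pool.Agent.TH980.IM.spm (Pool.Agent.TH980.IM.HV_sa K ω) u ≪ volume := by
      intro ω h1 u
      have hUx : ∀ t u, U ω t u = Ex (Pool.Agent.TH980.IM.HV K ω) t u := fun t u => by
        rw [hUe, grp_Ex h1 (hev ω)]
      constructor
      · rintro ⟨m, ⟨hm1, hm2⟩, hm3⟩
        have hmm : m = Pool.Agent.TH980.IM.spm (Pool.Agent.TH980.IM.HV_sa K ω) u :=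
          spm_unique _ u m fun t => by rw [← hUx, hm2 t]
        rw [← hmm]
        exact hm3
      · intro h
        refine ⟨_, ⟨inferInstance, fun t => ?_⟩, h⟩
        rw [hUx, Ex_spm]
    refine ⟨fun ω => PA K ω (NB.dl 0), κ, ⟨?_, ?_, hκ1, hκ2, fun t => ?_⟩, fun A hA => ?_⟩
    · exact PA_aesm K μ aestronglyMeasurable_const
    · have hbd' : ∀ᵐ ω ∂(iid d μ), ∀ x, |ω x| ≤ K := hbd
      filter_upwards [hbd'] with ω h1
      refine ⟨(hac_iff ω h1 _).2 (acP_ac _ _), fun w hw => ?_⟩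
      exact acP_orth _ ((hac_iff ω h1 w).1 hw) _
    · simp only [hUe]
      exact hκ3 t
    obtain ⟨v, M, hvA, hO⟩ := obs_of hA
    obtain ⟨f, Bop, hf1, hf2, hlim, hB, hmic⟩ := hmain v M hO
    refine ⟨f, ⟨hf1, ⟨M, hf2⟩, fun t => ?_⟩, ?_⟩
    · simp only [hUe, ← hvA]
      exact hmic t
    have hq : ∀ᵐ ω ∂(iid d μ), ∀ x, Tendsto (fun N : ℕ => NB.avP (ev ω) (v ω) N x) atTop
        (𝓝 (Bop ω x)) := Pool.Agent.R988.NQ.quench_off hev hO hlim
    have hB' : ∀ᵐ ω ∂(iid d μ), (∀ x, |ω x| ≤ K) ∧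
          (∀ x, Bop ω (Pool.Agent.TH980.IM.HV K ω x) =
            Pool.Agent.TH980.IM.HV K ω (Bop ω x)) ∧
          ∀ ψ, ∀ᵐ E : ℝ, Ngl (Pool.Agent.TH980.IM.HV K ω) E (Bop ω ψ - ((f E : ℝ) : ℂ) • ψ) := hB
    filter_upwards [hq, hB'] with ω hω ⟨h1, h2, h3⟩
    have hav : ∀ u, Tendsto (fun T : ℝ => average (U ω) (A ω) T u) atTop (𝓝 (Bop ω u)) := by
      intro u
      have h4 := Pool.Agent.R988.NQ.real_times' (ev ω) (v ω) u (Bop ω u) (hω u)
      refine h4.congr fun T => ?_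
      unfold average
      simp only [hUe, ← hvA]
      rfl
    refine ⟨fun u => ⟨Bop ω u, hav u⟩, fun u hu => ?_⟩
    have hsa := Pool.Agent.TH980.IM.HV_sa K ω
    have hUx : ∀ t u, U ω t u = Ex (Pool.Agent.TH980.IM.HV K ω) t u := fun t u => by
      rw [hUe, grp_Ex h1 (hev ω)]
    have huniq : ∀ m : Measure ℝ, IsSpectral (U ω) u m → m = Pool.Agent.TH980.IM.spm hsa u := by
      rintro m ⟨hm1, hm2⟩
      exact spm_unique hsa u m fun t => by rw [← hUx, hm2 t]
    obtain ⟨m, hms, hm3⟩ := hu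
    have hmm := huniq m hms
    have hac' : Pool.Agent.TH980.IM.spm hsa u ≪ volume := hmm ▸ hm3
    have hin : ∀ t : ℝ, ⟪U ω t u, Bop ω u⟫_ℂ =
        ∫ E : ℝ, Complex.exp (Complex.I * t * E) * f E ∂m := by
      intro t
      rw [hUx, inner_of_ngl hsa h2 hf1 hf2 h3 hac' t, ← hmm]
    refine ⟨⟨Bop ω u, ⟨m, hms, hin, ?_⟩, hav u⟩, fun m' hm' => ?_⟩
    · have h4 := norm_of_ngl hsa h2 (c := fun E => ((f E : ℝ) : ℂ))
        (Complex.measurable_ofReal.comp hf1) hac' (h3 u)
      rw [← hmm] at h4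
      have := hms.1
      have h5 : ∫⁻ E, ‖((f E : ℝ) : ℂ)‖ₑ ^ 2 ∂m = ENNReal.ofReal (∫ E, f E ^ 2 ∂m) := by
        rw [ofReal_integral_eq_lintegral_ofReal]
        · refine lintegral_congr fun E => ?_
          rw [← ofReal_norm, Complex.norm_real, ← ENNReal.ofReal_pow (norm_nonneg _),
            Real.norm_eq_abs, sq_abs]
        · refine Integrable.of_bound (hf1.pow_const 2).aestronglyMeasurable (M ^ 2)
            (ae_of_all _ fun E => ?_)
          rw [norm_pow, Real.norm_eq_abs]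
          exact pow_le_pow_left₀ (abs_nonneg _) (hf2 E) 2
        · exact ae_of_all _ fun E => sq_nonneg _
      have h6 : ‖Bop ω u‖ₑ ^ 2 = ENNReal.ofReal (‖Bop ω u‖ ^ 2) := by
        rw [← ofReal_norm, ENNReal.ofReal_pow (norm_nonneg _)]
      rw [h6, h5] at h4
      exact (ENNReal.ofReal_eq_ofReal_iff (by positivity)
        (integral_nonneg fun E => sq_nonneg _)).1 h4
    · have hm2 : m' = m := (huniq m' hm').trans hmm.symm
      subst hm2
      have h7 : (⟪u, Bop ω u⟫_ℂ).re = ∫ E, f E ∂m' := by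
        have h8 := hin 0
        rw [(hU ω).zero] at h8
        rw [h8]
        have h9 : ∀ E : ℝ, Complex.exp (Complex.I * ((0 : ℝ) : ℂ) * E) * f E = ((f E : ℝ) : ℂ) := by
          intro E
          simp
        simp only [h9]
        rw [integral_complex_ofReal, Complex.ofReal_re]
      rw [← h7]
      have h10 : Tendsto (fun T : ℝ => (⟪u, average (U ω) (A ω) T u⟫_ℂ).re) atTop
          (𝓝 (⟪u, Bop ω u⟫_ℂ).re) := by
        have h11 : Continuous fun y : L2 d => (⟪u, y⟫_ℂ).re :=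
          Complex.continuous_re.comp (continuous_const.inner continuous_id)
        exact (h11.tendsto _).comp (hav u)
      refine h10.congr fun T => ?_
      unfold average
      simp only [hUe, ← hvA]
      exact inner_average (ev ω) (v ω) u T

end Pool.Agent.R988.Old.Equilibration
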